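import Pool.Agent.H49R2.PC.Defs

/-!
# Local metric dimension of planar graphs: definitions

Graphs are given by lists (`Gr`), planar graphs are the graphs with a plane straight-line drawing
(`IsPlanar`), both from `Pool/Agent/H49R2/PC/Defs.lean`.
-/

set_option autoImplicit false

namespace Pool.Agent.Q231.LMD

open Pool.Agent.H49R2.PC

/-- The simple graph on the natural numbers whose edges are the edges of `G` (the numbers which
are not vertices of `G` are isolated). -/
def sg (G : Gr) : SimpleGraph ℕ := SimpleGraph.fromRel (fun u v => (u, v) ∈ G.2)

/-- `W` is a local metric generator of `G`: a set of vertices such that the two ends of each edge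
have different distances from some element of `W` (distance `⊤` in different components). -/
def IsLocGen (G : Gr) (W : Finset ℕ) : Prop :=
  (∀ w ∈ W, w ∈ G.1) ∧ ∀ e ∈ G.2, ∃ w ∈ W, (sg G).edist w e.1 ≠ (sg G).edist w e.2

/-- The local metric dimension: the least size of a local metric generator. -/
noncomputable def dimL (G : Gr) : ℕ := sInf {n | ∃ W : Finset ℕ, IsLocGen G W ∧ W.card = n}

end Pool.Agent.Q231.LMD
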