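import Pool.Agent.Q231.LMD.Stubs
import Pool.Agent.H49R2.PC.C1
import Pool.Agent.H49R2.PC.C2a
import Pool.Agent.H49R2.PC.C2b
import Pool.Agent.H49R2.PC.C3
import Pool.Agent.H49R2.PC.C4
import Pool.Agent.H49R2.PC.C5i
import Pool.Agent.H49R2.PC.C6i
import Pool.Agent.NPC.Sat

/-!
# Local metric dimension of planar graphs: the equivalence and the hardness theorem
-/

set_option autoImplicit false

namespace Pool.Agent.Q231.LMD

open Pool.Agent.NPC Pool.Agent.NPC.Cnt Pool.Agent.H49R2.PC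

/-- The graph of the reduction is a planar graph. -/
theorem planar_red (hA1 : S_A1) (hG3 : S_G3) (hT1 : S_T1) (hD5 : S_D5) (hC1 : S_C1)
    (φ : CNF ℕ) : IsPlanar (red φ).1 := by
  have h := hT1 _ (hC1 φ)
  have h1 := hA1 _ (hG3 _ _ h)
  exact ⟨h1, hD5 _ _ h h1⟩

/-- The equivalence. -/
theorem F_of (hA1 : S_A1) (hA2 : S_A2) (hA3 : S_A3) (hG3 : S_G3) (hH1 : S_H1) (hH2 : S_H2)
    (hT1 : S_T1) (hT2 : S_T2) (hT3 : S_T3) (hN : S_N) (hD5 : S_D5) (hC1 : S_C1) (hC5 : S_C5)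
    (hC6 : S_C6) : S_F := by
  intro φ
  have hg := hT1 _ (hC1 φ)
  have hE := hG3 _ _ hg
  have hgr := hA1 _ hE
  have h3 := hT3 _ (hC1 φ) (hT2 φ)
  constructor
  · intro h
    refine ⟨planar_red hA1 hG3 hT1 hD5 hC1 φ, ?_⟩
    obtain ⟨T, hT, hTc⟩ := hH1 _ _ hg (h3.1 (hC5 φ h))
    obtain ⟨W, hW, hWc⟩ := hA2 _ T hE hT
    exact (hN _ hgr _).2 ⟨W, hW, hWc.trans (Nat.add_le_add_left hTc _)⟩
  · rintro ⟨-, h⟩
    obtain ⟨W, hW, hWc⟩ := (hN _ hgr _).1 h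
    obtain ⟨T, hT, hTc⟩ := hA3 _ W hE hW
    refine hC6 φ (h3.2 (hH2 _ _ hg T hT ?_))
    have h4 : (hubV (EL (latS (blocksOf φ)) (triK (blocksOf φ)))).length + T.card ≤
      (hubV (EL (latS (blocksOf φ)) (triK (blocksOf φ)))).length +
      (6 * (latS (blocksOf φ)).length + 2 * (triK (blocksOf φ)).length) := hTc.trans hWc
    exact Nat.le_of_add_le_add_left h4

/-- A formula is satisfiable iff it has a satisfying assignment of its variables. -/
theorem sat_iff (φ : CNF ℕ) : SAT φ ↔ 0 < satCount φ := by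
  unfold satCount
  rw [Finset.card_pos]
  constructor
  · rintro ⟨ν, hν⟩
    refine ⟨(vars φ).filter (fun v => ν v = true), ?_⟩
    rw [Finset.mem_filter, Finset.mem_powerset]
    refine ⟨Finset.filter_subset _ _, ?_⟩
    intro c hc
    obtain ⟨l, hl, hlv⟩ := hν c hc
    refine ⟨l, hl, ?_⟩
    have hv : l.2 ∈ vars φ := mem_vars.2 ⟨c, hc, l.1, hl⟩
    rw [Bool.eq_iff_iff, decide_eq_true_iff, Finset.mem_filter, ← hlv]
    exact ⟨fun h => ⟨hv, h⟩, fun h => h.2⟩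
  · rintro ⟨S, hS⟩
    rw [Finset.mem_filter] at hS
    refine ⟨fun v => decide (v ∈ S), fun c hc => ?_⟩
    obtain ⟨l, hl, h⟩ := hS.2 c hc
    exact ⟨l, hl, h.symm⟩

/-- The hardness theorem. -/
theorem hard_of (hF : S_F) (hP : S_P) :
    NPHardP (fun x : Gr × ℕ => IsPlanar x.1 ∧ dimL x.1 ≤ x.2) :=
  NPHardP.of_poly npHard_SAT hP (fun φ => (sat_iff φ).trans (hF φ))

end Pool.Agent.Q231.LMD
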