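import Pool.Agent.Q231.LMD.Stubs

/-!
# Local metric dimension of planar graphs: task G2
-/

set_option autoImplicit false

namespace Pool.Agent.Q231.LMD

/-- The Boolean form of the check. -/
def g2b : Bool :=
  (List.range 27).all fun t => (List.range 27).all fun t' =>
    [(tabE t).1, (tabE t).2.1].all fun o => [(tabE t').1, (tabE t').2.1].all fun o' =>
      decide (o.2.2 ≠ o'.2.2) || decide (t = t' ∧ o = o') ||
        (tabE t).2.2.any fun h => (tabE t').2.2.any fun h' =>
          decide (h.2.2 = h'.2.2 ∧ h.1 + o'.1 = h'.1 + o.1 ∧ h.2.1 + o'.2.1 = h'.2.1 + o.2.1)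

theorem g2b_true : g2b = true := by decide +kernel

theorem G2_ok : S_G2 := by
  intro t ht t' ht' o ho o' ho' hk
  have h := g2b_true
  unfold g2b at h
  rw [List.all_eq_true] at h
  have h1 := h t (List.mem_range.2 ht)
  rw [List.all_eq_true] at h1
  have h2 := h1 t' (List.mem_range.2 ht')
  rw [List.all_eq_true] at h2
  have h3 := h2 o ho
  rw [List.all_eq_true] at h3
  have h4 := h3 o' ho'
  rw [Bool.or_eq_true, Bool.or_eq_true, decide_eq_true_eq, decide_eq_true_eq,
    List.any_eq_true] at h4
  rcases h4 with (h4 | h4) | ⟨x, hx, h4⟩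
  · exact absurd hk h4
  · exact Or.inl h4
  · rw [List.any_eq_true] at h4
    obtain ⟨y, hy, h5⟩ := h4
    exact Or.inr ⟨x, hx, y, hy, of_decide_eq_true h5⟩

end Pool.Agent.Q231.LMD
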