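import Pool.Agent.Q231.LMD.F
import Pool.Agent.Q231.LMD.G2
import Pool.Agent.Q214.LMD.A2
import Pool.Agent.Q214.LMD.A3b
import Pool.Agent.Q182.LMD.A3i
import Pool.Agent.Q182.LMD.G1
import Pool.Agent.Q277.LMD.H1
import Pool.Agent.Q217.LMD.H2i
import Pool.Agent.Q10.LMD.T1
import Pool.Agent.Q277.LMD.T2
import Pool.Agent.Q142.LMD.D1
import Pool.Agent.Q142.LMD.D4
import Pool.Agent.Q154.LMD.D3
import Pool.Agent.Q142.LMD.D5
import Pool.Agent.Q217.LMD.P1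
import Pool.Agent.Q186.LMD.P2
import Pool.Agent.Q192.LMD.P3
import Pool.Agent.Q154.LMD.N
import Pool.Agent.Q208.LMD.H2a
import Pool.Agent.Q164.LMD.A1
import Pool.Agent.Q164.LMD.A3a
import Pool.Agent.Q164.LMD.G3i
import Pool.Agent.H673R2.HardOn

/-!
# Local metric dimension of planar graphs: the hardness theorem
-/

set_option autoImplicit false

namespace Pool.Agent.Q231.LMD

open Pool.Agent.NPC Pool.Agent.NPC.Cnt Pool.Agent.H49R2.PC Pool.Agent.H673R2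

theorem hard :
    NPHardOn (fun x : Gr × ℕ => IsPlanar x.1) (fun x => dimL x.1 ≤ x.2) := by
  have hA1 : S_A1 := Pool.Agent.Q164.LMD.A1_ok
  have hA3 : S_A3 := Pool.Agent.Q182.LMD.A3i_ok Pool.Agent.Q164.LMD.A3a_ok
    Pool.Agent.Q214.LMD.A3b_ok
  have hG3 : S_G3 := Pool.Agent.Q164.LMD.G3i_ok Pool.Agent.Q182.LMD.G1_ok G2_ok
  have hH2 : S_H2 := Pool.Agent.Q217.LMD.H2i_ok Pool.Agent.Q208.LMD.H2a_ok
  have hF : S_F := F_of hA1 Pool.Agent.Q214.LMD.A2_ok hA3 hG3 H1_ok hH2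
    Pool.Agent.Q10.LMD.T1_ok T2_ok Pool.Agent.Q10.LMD.T3_ok Pool.Agent.Q154.LMD.N_ok
    (Pool.Agent.Q142.LMD.D5i_ok Pool.Agent.Q142.LMD.D1_ok Pool.Agent.Q142.LMD.D2_ok
      Pool.Agent.Q154.LMD.D3_ok Pool.Agent.Q142.LMD.D4_ok)
    C1_ok (C5i_ok C2a_ok C2b_ok C3_ok C4_ok) (C6i_ok C3_ok)
  have hP : S_P := Pool.Agent.Q192.LMDP3.Pi_ok Pool.Agent.Q217.LMD.P1_ok
    Pool.Agent.Q186.LMD.P2_ok Pool.Agent.Q192.LMDP3.P3_ok
  refine npHardOn_of (HardI.toHardPr hardI_SAT) (f := red) hP ?_ ?_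
  · intro φ _
    exact planar_red hA1 hG3 Pool.Agent.Q10.LMD.T1_ok
      (Pool.Agent.Q142.LMD.D5i_ok Pool.Agent.Q142.LMD.D1_ok Pool.Agent.Q142.LMD.D2_ok
        Pool.Agent.Q154.LMD.D3_ok Pool.Agent.Q142.LMD.D4_ok) C1_ok φ
  · intro φ _
    rw [sat_iff φ, hF φ]
    exact ⟨fun h => h.2, fun h => ⟨planar_red hA1 hG3 Pool.Agent.Q10.LMD.T1_ok
      (Pool.Agent.Q142.LMD.D5i_ok Pool.Agent.Q142.LMD.D1_ok Pool.Agent.Q142.LMD.D2_ok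
        Pool.Agent.Q154.LMD.D3_ok Pool.Agent.Q142.LMD.D4_ok) C1_ok φ, h⟩⟩

end Pool.Agent.Q231.LMD
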