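import Pool.Agent.Q231.LMD.Defs
import Pool.Agent.H49R2.PC.Stubs
import Pool.Agent.NPC.Dec

/-!
# Local metric dimension of planar graphs: the construction and the steps of the proof
-/

set_option autoImplicit false

namespace Pool.Agent.Q231.LMD

open Pool.Agent.NPC Pool.Agent.NPC.Cnt Pool.Agent.H49R2.PC

/-! ## The graph of a list of special edges -/

/-- A special edge: identifier, list of the selectors attached to its first end, list of the
selectors attached to its second end, list of its hubs. -/
abbrev Sp : Type := ℕ × List ℕ × List ℕ × List ℕ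

/-- The attached selectors. -/
def att (e : Sp) : List ℕ := e.2.1 ++ e.2.2.1

/-- The hubs. -/
def hbs (e : Sp) : List ℕ := e.2.2.2

/-- The selectors. -/
def selV (E : List Sp) : List ℕ := (E.flatMap att).dedup

/-- The hubs. -/
def hubV (E : List Sp) : List ℕ := (E.flatMap hbs).dedup

/-- The graph.  The selector `u` is the vertex `6 u`, the ends of the special edge with identifier
`i` are the vertices `6 i + 1` and `6 i + 2`, the hub `k` is the vertex `6 k + 3`, it has two
private vertices `6 k + 4`, `6 k + 5`.  Both ends of a special edge are adjacent to its hubs, each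
end is adjacent to the selectors attached to it; a hub and its private vertices form a triangle. -/
def gE (E : List Sp) : Gr :=
  ((selV E).map (fun u => 6 * u) ++ E.flatMap (fun e => [6 * e.1 + 1, 6 * e.1 + 2]) ++
      (hubV E).flatMap (fun k => [6 * k + 3, 6 * k + 4, 6 * k + 5]),
    E.flatMap (fun e => (6 * e.1 + 1, 6 * e.1 + 2) ::
      (e.2.1.map (fun u => (6 * e.1 + 1, 6 * u)) ++ (e.2.2.1.map (fun u => (6 * e.1 + 2, 6 * u)) ++
        e.2.2.2.flatMap (fun k => [(6 * e.1 + 1, 6 * k + 3), (6 * e.1 + 2, 6 * k + 3)])))) ++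
    (hubV E).flatMap (fun k =>
      [(6 * k + 3, 6 * k + 4), (6 * k + 3, 6 * k + 5), (6 * k + 4, 6 * k + 5)]))

/-- Validity of a list of special edges: different identifiers, at least one attached selector, at
least one hub, no selector is attached to both ends, and two different special edges with a common
attached selector have a common hub. -/
structure GoodE (E : List Sp) : Prop where
  nodup : (E.map Prod.fst).Nodup
  att_ne : ∀ e ∈ E, att e ≠ []
  hbs_ne : ∀ e ∈ E, hbs e ≠ []
  disj : ∀ e ∈ E, ∀ u ∈ e.2.1, u ∉ e.2.2.1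
  share : ∀ e ∈ E, ∀ e' ∈ E, e ≠ e' → ∀ u ∈ att e, u ∈ att e' → ∃ k ∈ hbs e, k ∈ hbs e'

/-- Every special edge has an attached selector in `T`. -/
def Hit (E : List Sp) (T : Finset ℕ) : Prop := ∀ e ∈ E, ∃ u ∈ att e, u ∈ T

/-- task A0: adjacency in the graph.  Proof: `SimpleGraph.fromRel_adj`, membership in the list
`(gE E).2` (`List.mem_append`, `List.mem_flatMap`, `List.mem_cons`, `List.mem_map`), and case
distinctions.  The ends of all edges in the list are different since they are different modulo 6.
`k ∈ hubV E` iff some `e ∈ E` has `k ∈ hbs e` (`List.mem_dedup`). -/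
def S_A0 : Prop := ∀ (E : List Sp) (m n : ℕ), (sg (gE E)).Adj m n ↔
  ((m, n) ∈ (gE E).2 ∨ (n, m) ∈ (gE E).2)

/-- task A1: validity of the graph.  Proof: the three lists of vertices consist of numbers of
different residues modulo 6 and are duplicate-free: `selV E` and `hubV E` by `List.nodup_dedup`,
the identifiers by `GoodE.nodup`; ends of edges are vertices (an attached selector of `e ∈ E` lies
in `selV E`, a hub of `e ∈ E` in `hubV E`). -/
def S_A1 : Prop := ∀ E : List Sp, GoodE E → IsGr (gE E)

/-- task A2: a hitting set gives a local metric generator.  Proof: `W` consists of the vertices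
`6 u`, `u ∈ T`, `u ∈ selV E`, and `6 k + 4`, `k ∈ hubV E` (two disjoint images).
Adjacency: the neighbours of `6 k + 4` are `6 k + 3`, `6 k + 5`; those of `6 k + 5` are `6 k + 3`,
`6 k + 4`; the neighbours of a selector `6 u` are the ends `6 e.1 + 1` with `u ∈ e.2.1` and
`6 e.1 + 2` with `u ∈ e.2.2.1`.  We only need the relations `edist ≤ 1` (equal or adjacent) and
`edist ≤ 2` (equal, adjacent, or a common neighbour).
* edges `(6 k + 3, 6 k + 4)`, `(6 k + 4, 6 k + 5)`: `w = 6 k + 4` has distance `0` from itself only;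
* edge `(6 k + 3, 6 k + 5)`: there is `e ∈ E` with `k ∈ hbs e`, and `u ∈ att e`, `u ∈ T`; then
  `w = 6 u` has distance at most 2 from `6 k + 3` (common neighbour: the end of `e` to which `u` is
  attached), but it has distance more than 2 from `6 k + 5`;
* edges between an end `z` of `e` and a hub `6 k + 3` of `e`: `w = 6 k + 4` is adjacent to the hub
  and neither equal nor adjacent to `z`;
* the edge `(6 e.1 + 1, 6 e.1 + 2)`: `w = 6 u` with `u ∈ att e`, `u ∈ T` is adjacent to exactly one
  of the two ends (`disj`, and different elements of `E` have different identifiers) and equal to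
  none;
* an edge between an end `z` of `e` and an attached selector `6 u`: `e` has a hub `k` and
  `w = 6 k + 4` has distance at most 2 from `z` (through `6 k + 3`), but more than 2 from `6 u`
  (the neighbours `6 k + 3`, `6 k + 5` of `w` are not neighbours of `6 u`). -/
def S_A2 : Prop := ∀ (E : List Sp) (T : Finset ℕ), GoodE E → Hit E T →
  ∃ W : Finset ℕ, IsLocGen (gE E) W ∧ W.card ≤ (hubV E).length + T.card

/-- task A3a: the two private vertices of a hub can be distinguished only by themselves.
Proof: more generally let `G` be a simple graph, `a`, `b` vertices with the same neighbours outside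
`{a, b}`; then a vertex `w` different from both has the same distance from `a` and `b`: if
`edist w a = n` is finite, the last vertex before `a` of a shortest walk is a neighbour `z` of `a`
with `edist w z = n - 1`, so `z ≠ a`; if `z = b` then `edist w b = n - 1 ≤ n`, otherwise `z` is a
neighbour of `b`, so that `edist w b ≤ n`. -/
def S_A3a : Prop := ∀ (E : List Sp) (k w : ℕ), k ∈ hubV E → w ≠ 6 * k + 4 → w ≠ 6 * k + 5 →
  (sg (gE E)).edist w (6 * k + 4) = (sg (gE E)).edist w (6 * k + 5)

/-- task A3b: the ends of a special edge can be distinguished only by themselves and by the attached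
selectors.  Proof of `edist w y ≤ edist w x` for the ends `x`, `y` (in any order) of `e`: let
`edist w x = n` be finite; `n ≥ 1`; the last vertex `z` before `x` of a shortest walk from `w` is a
neighbour of `x` with `edist w z = n - 1`.  If `z = y`, done.  If `z` is a hub of `e` then `z` is
adjacent to `y`, so `edist w y ≤ n`.  Otherwise `z = 6 u` with `u` attached to `x`; `w ≠ z`, so
`n ≥ 2` and the last but one vertex `z'` is a neighbour of `6 u` with `edist w z' = n - 2`, it is
an end of some `e' ∈ E` with `u ∈ att e'`.  If `e' = e` then `z' = x` (impossible, `n - 2 < n`) or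
`z' = y` (done).  If `e' ≠ e` there is a common hub of `e` and `e'` (`share`), which is adjacent to
`z'` and to `y`: `edist w y ≤ n - 2 + 2`. -/
def S_A3b : Prop := ∀ (E : List Sp), GoodE E → ∀ e ∈ E, ∀ w : ℕ, w ≠ 6 * e.1 + 1 →
  w ≠ 6 * e.1 + 2 → (∀ u ∈ att e, w ≠ 6 * u) →
  (sg (gE E)).edist w (6 * e.1 + 1) = (sg (gE E)).edist w (6 * e.1 + 2)

/-- task A3: a local metric generator gives a hitting set.  Proof: for every `k ∈ hubV E` the edge
`(6 k + 4, 6 k + 5)` is distinguished, so `W` contains `6 k + 4` or `6 k + 5` (A3a).  Let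
`W'` be the set of the `w ∈ W` with `w % 6 < 3`, so that `W'.card + (hubV E).length ≤ W.card` (the
elements of `W` with residue 4, 5 map onto `hubV E` by `w ↦ w / 6`).  Let `T` be the image of `W'`
under the map `w ↦ w / 6` if `w % 6 = 0`, and `w ↦` some attached selector of the special edge
with identifier `w / 6` otherwise (if there is one, else 0).  Every `e ∈ E` is hit, since `W`
distinguishes the edge `(6 e.1 + 1, 6 e.1 + 2)` and A3b. -/
def S_A3 : Prop := ∀ (E : List Sp) (W : Finset ℕ), GoodE E → IsLocGen (gE E) W →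
  ∃ T : Finset ℕ, Hit E T ∧ (hubV E).length + T.card ≤ W.card

def S_A3i : Prop := S_A3a → S_A3b → S_A3

/-! ## The special edges of a set of sites and a set of lattice triangles -/

/-- The table of the special edges: `(dx, dy, j)` for the selector attached to the first end, the
same for the second end, and `(dx, dy, k)` for the two hubs.  Kinds 0 to 11 are the edges of the
rings, 12 to 14 belong to the lattice edges, 15 to 20 to the triangles of the first kind, 21 to 26
to the triangles of the second kind.  Selectors 0 to 11 form the ring of a site, selectors 12 to 14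
belong to a triangle of the first kind, 15 to 17 to a triangle of the second kind. -/
def tab : List ((ℕ × ℕ × ℕ) × (ℕ × ℕ × ℕ) × List (ℕ × ℕ × ℕ)) :=
  [((0, 0, 0), (0, 0, 1), [(0, 0, 0), (1, 1, 1)]),
    ((0, 0, 1), (0, 0, 2), [(0, 0, 0), (1, 1, 3)]),
    ((0, 0, 2), (0, 0, 3), [(0, 0, 0), (0, 1, 5)]),
    ((0, 0, 3), (0, 0, 4), [(0, 0, 0), (0, 1, 7)]),
    ((0, 0, 4), (0, 0, 5), [(0, 0, 0), (0, 1, 2)]),
    ((0, 0, 5), (0, 0, 6), [(0, 0, 0), (0, 1, 1)]),
    ((0, 0, 6), (0, 0, 7), [(0, 0, 0), (0, 0, 6)]),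
    ((0, 0, 7), (0, 0, 8), [(0, 0, 0), (0, 0, 5)]),
    ((0, 0, 8), (0, 0, 9), [(0, 0, 0), (1, 0, 3)]),
    ((0, 0, 9), (0, 0, 10), [(0, 0, 0), (1, 0, 2)]),
    ((0, 0, 10), (0, 0, 11), [(0, 0, 0), (1, 0, 7)]),
    ((0, 0, 11), (0, 0, 0), [(0, 0, 0), (1, 0, 6)]),
    ((0, 0, 0), (1, 0, 6), [(1, 1, 1), (1, 0, 6)]),
    ((0, 0, 2), (0, 1, 8), [(1, 1, 3), (0, 1, 5)]),
    ((1, 0, 4), (0, 1, 10), [(1, 1, 2), (1, 1, 7)]),
    ((0, 0, 12), (0, 0, 13), [(1, 1, 4), (1, 1, 1)]),
    ((0, 0, 13), (0, 0, 14), [(1, 1, 4), (1, 1, 2)]),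
    ((0, 0, 14), (0, 0, 12), [(1, 1, 4), (1, 1, 3)]),
    ((0, 0, 12), (0, 0, 1), [(1, 1, 3), (1, 1, 1)]),
    ((0, 0, 13), (1, 0, 5), [(1, 1, 1), (1, 1, 2)]),
    ((0, 0, 14), (0, 1, 9), [(1, 1, 2), (1, 1, 3)]),
    ((0, 0, 15), (0, 0, 16), [(1, 1, 8), (1, 1, 5)]),
    ((0, 0, 16), (0, 0, 17), [(1, 1, 8), (1, 1, 6)]),
    ((0, 0, 17), (0, 0, 15), [(1, 1, 8), (1, 1, 7)]),
    ((0, 0, 15), (1, 0, 3), [(1, 1, 7), (1, 1, 5)]),
    ((0, 0, 16), (1, 1, 7), [(1, 1, 5), (1, 1, 6)]),
    ((0, 0, 17), (0, 1, 11), [(1, 1, 6), (1, 1, 7)])]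

/-- The entry of the table. -/
def tabE (t : ℕ) : (ℕ × ℕ × ℕ) × (ℕ × ℕ × ℕ) × List (ℕ × ℕ × ℕ) :=
  tab.getD t ((0, 0, 0), (0, 0, 0), [])

/-- The label at position `p + (dx, dy)` of kind `k`. -/
def sh (p : Pt) (o : ℕ × ℕ × ℕ) : ℕ := vl (p.1 + o.1) (p.2 + o.2.1) o.2.2

/-- The special edge of kind `t` at the position `p`; a selector of a ring is attached to the second
end only if its site belongs to `L`. -/
def spL (L : List Pt) (p : Pt) (t : ℕ) : Sp :=
  (vl p.1 p.2 t, [sh p (tabE t).1],
    (if (tabE t).2.1.2.2 < 12 ∧ (p.1 + (tabE t).2.1.1, p.2 + (tabE t).2.1.2.1) ∉ L then []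
      else [sh p (tabE t).2.1]), (tabE t).2.2.map (sh p))

/-- The special edges of the three lattice edges belonging to the site `s` whose other end belongs
to `L`. -/
def pairIdx (L : List Pt) (s : Pt) : List (Pt × ℕ) :=
  (if (s.1 + 1, s.2) ∈ L then [(s, 12)] else []) ++
  ((if (s.1, s.2 + 1) ∈ L then [(s, 13)] else []) ++
    (if (s.1 - 1, s.2 + 1) ∈ L then [((s.1 - 1, s.2), 14)] else []))

/-- The positions and kinds of the special edges of the list `L` of sites and the list `K` of
triangles. -/
def idx (L : List Pt) (K : List (Pt × ℕ)) : List (Pt × ℕ) :=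
  L.flatMap (fun s => (List.range 12).map (fun j => (s, j))) ++
    (L.flatMap (pairIdx L) ++
      K.flatMap (fun t => (List.range 6).map (fun k => (t.1, 15 + 6 * t.2 + k))))

/-- The special edges. -/
def EL (L : List Pt) (K : List (Pt × ℕ)) : List Sp := (idx L K).map (fun i => spL L i.1 i.2)

/-- The corners of a triangle: kind 0 is `(x, y)`, `(x + 1, y)`, `(x, y + 1)`, kind 1 is
`(x + 1, y)`, `(x + 1, y + 1)`, `(x, y + 1)`. -/
def corners (t : Pt × ℕ) : List Pt :=
  if t.2 = 0 then [(t.1.1, t.1.2), (t.1.1 + 1, t.1.2), (t.1.1, t.1.2 + 1)]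
  else [(t.1.1 + 1, t.1.2), (t.1.1 + 1, t.1.2 + 1), (t.1.1, t.1.2 + 1)]

/-- Validity of the lists of sites and triangles. -/
structure GoodLK (L : List Pt) (K : List (Pt × ℕ)) : Prop where
  nodupL : L.Nodup
  nodupK : K.Nodup
  kind : ∀ t ∈ K, t.2 < 2
  pos : ∀ s ∈ L, 1 ≤ s.1 ∧ 1 ≤ s.2

/-- task G1: the list of positions and kinds.  Proof: `s.1 ≥ 1` for `s ∈ L`, so the map
`s ↦ (s.1 - 1, s.2)` is injective on `L`; the kinds are at most 11 in the first part, 12 to 14 in
the second, at least 15 in the third part. -/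
def S_G1 : Prop := ∀ L K, GoodLK L K → (idx L K).Nodup ∧ ∀ i ∈ idx L K, i.2 < 27

/-- task G2: the table.  Proof: `decide`. -/
def S_G2 : Prop := ∀ t < 27, ∀ t' < 27, ∀ o ∈ [(tabE t).1, (tabE t).2.1],
  ∀ o' ∈ [(tabE t').1, (tabE t').2.1], o.2.2 = o'.2.2 →
    (t = t' ∧ o = o') ∨ ∃ h ∈ (tabE t).2.2, ∃ h' ∈ (tabE t').2.2, h.2.2 = h'.2.2 ∧
      h.1 + o'.1 = h'.1 + o.1 ∧ h.2.1 + o'.2.1 = h'.2.1 + o.2.1

/-- task G3: validity of the special edges.  Proof: identifiers `vl p.1 p.2 t` are different by G1
and injectivity of `Nat.pair`; `disj` since the two selectors of an entry of the table have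
different kinds; `share`: a common selector `sh p o = sh p' o'` gives `p.1 + o.1 = p'.1 + o'.1`,
`p.2 + o.2.1 = p'.2 + o'.2.1`, `o.2.2 = o'.2.2` (injectivity of `Nat.pair`); by G2 either `t = t'`
and `o = o'`, so `p = p'` and the special edges are equal, or there are `h`, `h'` with
`sh p h = sh p' h'`, which is a common hub. -/
def S_G3 : Prop := ∀ L K, GoodLK L K → GoodE (EL L K)

def S_G3i : Prop := S_G1 → S_G2 → S_G3

/-! ## Selections and hitting sets -/

/-- An independent set of sites in `L` with an element in every triangle of `K`. -/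
def SelLK (L : List Pt) (K : List (Pt × ℕ)) : Prop :=
  ∃ I : Finset Pt, (∀ s ∈ I, s ∈ L) ∧ (∀ s ∈ I, ∀ t ∈ I, ¬ adjP s t) ∧
    ∀ t ∈ K, ∃ s ∈ corners t, s ∈ I

/-- task H1: a selection gives a hitting set.  Proof: `T` consists of the selectors
`vl s.1 s.2 (2 i + 1)`, `i < 6`, for `s ∈ I` (recall `I ⊆ L`), of `vl s.1 s.2 (2 i)`, `i < 6`, for
`s ∈ L`, `s ∉ I`, and for each triangle `t = (p, τ) ∈ K` of the two selectors
`vl p.1 p.2 (12 + 3 τ + k)`, `k < 3`, `k ≠ k0`, where `k0` is the least index of a corner of `t`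
which belongs to `I`.  (`corners t` is the list of the sites `(p.1 + dx, p.2 + dy)` for the second
selectors `(dx, dy, _)` of the kinds `18 + 6 τ + k`, `k < 3`, and these selectors have odd index.)
Check of the kinds: ring edge: selectors `j`, `j + 1 mod 12`, one of them of each parity;
lattice edges: two even selectors of two adjacent sites of `L`, one of them not in `I`; edges 15 to
17 and 21 to 23: two of the three selectors of the triangle; edges 18 to 20, 24 to 26: the selector
`k` of the triangle, or for `k = k0` the odd selector of the corner `k0`, which belongs to `I ⊆ L`,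
so it is attached. -/
def S_H1 : Prop := ∀ L K, GoodLK L K → SelLK L K →
  ∃ T : Finset ℕ, Hit (EL L K) T ∧ T.card ≤ 6 * L.length + 2 * K.length

/-- task H2a: counting in the rings and triangles.  Proof: we may replace `T` by its elements of the
form `vl s.1 s.2 j` with `s ∈ L`, `j < 12` or `vl p.1 p.2 (12 + 3 τ + k)` with `(p, τ) ∈ K`,
`k < 3`.  For `s ∈ L` the ring edges `0, 2, 4, ..., 10` require that `T` contains for each `i < 6`
one of the selectors `2 i`, `2 i + 1` of `s`: at least 6 elements; for `t ∈ K` the three edges of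
the triangle require at least 2 of the three selectors.  All these groups (`6 L.length` pairs and
`K.length` triples) are pairwise disjoint, so with `T.card ≤ 6 * L.length + 2 * K.length` each
pair contains exactly one and each triple exactly two elements of `T`.  In the same way with the
ring edges `1, 3, ..., 11` each pair `2 i + 1`, `2 i + 2 mod 12` contains exactly one element.
So `j ∈ T` iff `j + 1 ∉ T` in each ring, which gives the parity statement. -/
def S_H2a : Prop := ∀ L K, GoodLK L K → ∀ T : Finset ℕ, Hit (EL L K) T →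
  T.card ≤ 6 * L.length + 2 * K.length →
  (∀ s ∈ L, ∀ j < 12, (vl s.1 s.2 j ∈ T ↔ ((j % 2 = 1) ↔ vl s.1 s.2 1 ∈ T))) ∧
  (∀ t ∈ K, ∃ k < 3, vl t.1.1 t.1.2 (12 + 3 * t.2 + k) ∉ T)

/-- task H2: a hitting set of small size gives a selection.  Proof: let `I` be the set of the
`s ∈ L` with `vl s.1 s.2 1 ∈ T`.  By H2a all odd selectors of `s ∈ I` and no even selector of
`s ∈ I` are in `T`, and for `s ∈ L`, `s ∉ I` conversely.  Adjacent `s, t ∈ I` are impossible:
one of the two is `s'` and the other `s' + (1, 0)`, `s' + (0, 1)` or `s' + (-1, 1)`, the special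
edge of kind 12, 13, 14 has only even selectors of them.  For `t ∈ K` there is `k < 3` with
`vl t.1.1 t.1.2 (12 + 3 * t.2 + k) ∉ T`; the special edge of kind `18 + 6 * t.2 + k` is hit, so
its second selector is attached and in `T`: its site, the corner `k` of `t`, is in `L`, and the
selector is odd, so that the corner is in `I`. -/
def S_H2 : Prop := ∀ L K, GoodLK L K → ∀ T : Finset ℕ, Hit (EL L K) T →
  T.card ≤ 6 * L.length + 2 * K.length → SelLK L K

def S_H2i : Prop := S_H2a → S_H2

/-! ## The triangles of a list of blocks -/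

/-- The triangles with a corner `s` (and possibly some others). -/
def cand (s : Pt) : List (Pt × ℕ) :=
  [(s, 0), ((s.1 - 1, s.2), 1), ((s.1 - 1, s.2), 0), ((s.1 - 1, s.2 - 1), 1), ((s.1, s.2 - 1), 0),
    ((s.1, s.2 - 1), 1)]

/-- The set of the corners of `t` in `L` is the block `b`. -/
def isBl (L : List Pt) (t : Pt × ℕ) (b : List Pt) : Bool :=
  ((corners t).all (fun c => decide (c ∈ L → c ∈ b))) && b.all (fun c => decide (c ∈ corners t))

/-- The triangles whose set of corners in `latS B` is a block. -/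
def triK (B : List (List Pt)) : List (Pt × ℕ) :=
  (((latS B).flatMap cand).dedup).filter (fun t => B.any (fun b => isBl (latS B) t b))

/-- task T1: validity. Proof: immediate from the definitions (`latS` is a `dedup`). -/
def S_T1 : Prop := ∀ B, GoodB B → GoodLK (latS B) (triK B)

/-- The blocks of a cell with a triangle each: the block is contained in the set of the corners, and
the other corners are no sites of the cell. -/
def triTab : List (List Pt × (Pt × ℕ)) :=
  [([(5, 4), (4, 4), (5, 3)], ((4, 3), 1)), ([(3, 4), (4, 4), (4, 3)], ((3, 3), 1)),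
    ([(5, 2), (5, 3), (4, 3)], ((4, 2), 1)), ([(4, 8), (5, 8), (4, 9)], ((4, 8), 0)),
    ([(6, 8), (5, 8), (5, 9)], ((5, 8), 0)), ([(4, 10), (4, 9), (5, 9)], ((4, 9), 0)),
    ([(10, 1), (11, 1), (10, 2)], ((10, 1), 0)), ([(12, 1), (11, 1), (11, 2)], ((11, 1), 0)),
    ([(10, 3), (10, 2), (11, 2)], ((10, 2), 0)), ([(7, 6), (6, 6)], ((6, 6), 0)),
    ([(6, 6), (5, 6)], ((5, 6), 0)), ([(5, 6), (5, 5)], ((5, 5), 0)),
    ([(5, 5), (5, 4)], ((5, 4), 0)), ([(7, 6), (7, 7)], ((7, 6), 0)),
    ([(7, 7), (6, 8)], ((6, 7), 0)), ([(7, 6), (8, 5)], ((7, 5), 0)),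
    ([(8, 5), (9, 4)], ((8, 4), 0)), ([(9, 4), (10, 3)], ((9, 3), 0)),
    ([(2, 5), (3, 4)], ((2, 4), 0)), ([(2, 5), (2, 6)], ((2, 5), 0)),
    ([(2, 6), (2, 7)], ((2, 6), 0)), ([(2, 7), (2, 8)], ((2, 7), 0)),
    ([(2, 8), (3, 8)], ((2, 8), 0)), ([(3, 8), (4, 8)], ((3, 8), 0)),
    ([(6, 1), (5, 2)], ((5, 1), 1)), ([(6, 1), (7, 1)], ((6, 1), 0)),
    ([(7, 1), (8, 1)], ((7, 1), 0)), ([(8, 1), (9, 1)], ((8, 1), 0)),
    ([(9, 1), (10, 1)], ((9, 1), 0)), ([(2, 8), (1, 9)], ((1, 8), 0)),
    ([(1, 9), (1, 10)], ((1, 9), 0)), ([(1, 10), (1, 11)], ((1, 10), 0)),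
    ([(1, 11), (1, 12)], ((1, 11), 0)), ([(1, 12), (2, 12)], ((1, 12), 0)),
    ([(1, 12), (0, 13)], ((0, 12), 0)), ([(0, 13), (0, 14)], ((0, 13), 0)),
    ([(0, 14), (0, 15)], ((0, 14), 0)), ([(0, 15), (0, 16)], ((0, 15), 0)),
    ([(0, 16), (1, 16)], ((0, 16), 0)), ([(1, 16), (2, 16)], ((1, 16), 0)),
    ([(12, 1), (13, 1)], ((12, 1), 0)), ([(13, 1), (14, 1)], ((13, 1), 0)),
    ([(14, 1), (15, 1)], ((14, 1), 0)), ([(15, 1), (16, 1)], ((15, 1), 0)),
    ([(4, 13), (4, 14)], ((4, 13), 0)), ([(4, 17), (4, 18)], ((4, 17), 0)),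
    ([(4, 11), (4, 12)], ((4, 11), 0)), ([(4, 15), (4, 16)], ((4, 15), 0)),
    ([(4, 11), (4, 12), (3, 12)], ((3, 11), 1)), ([(4, 15), (4, 16), (3, 16)], ((3, 15), 1)),
    ([(6, 0)], ((5, 0), 0)), ([(6, 0), (6, 1)], ((6, 0), 0)), ([(4, 17)], ((3, 17), 0))]

/-- task T2: the block structure of the formulas.  Proof: a block of `blocksOf φ` is a block `b` of
a cell `(i, j)` (moved by `posn n m i j`) or one of the two joining blocks
`[posn n m i j (16, 1), posn n m i (j + 1) (2, 5)]`,
`[posn n m i j (4, 18), posn n m (i + 1) j (6, 1)]`.  Every local block occurs in `triTab` (check for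
the four pairs of flags by `decide`), and for `(b, t)` in `triTab` all elements of `b` are corners
of `t` and the other corners of `t` are not elements of `(cellB true true).flatten ++ [(6, 0)]`
(`decide`).  `posn n m i j` is a translation: it maps the corners of `t = (q, τ)` to the corners of
`(posn n m i j q, τ)`.  All sites of `latS (blocksOf φ)` have the form `posn n m i' j' q` with
`SiteP i' q` (here `SiteP i' q` iff `∃ b ∈ cellB true true, q ∈ b`, or `i' = 0` and `q = (6, 0)`).
Let `c` be a corner of `t`, not in `b`, and suppose that `posn n m i j c` is a site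
`posn n m i' j' q`; it is adjacent to `posn n m i j p` for an element `p` of `b` (two corners of a
triangle are adjacent), and `p` is a site of the cell, so by `C2a_ok` (file
`Pool/Agent/H49R2/PC/C2a.lean`) either `i' = i`, `j' = j`, and then `q = c` (`posn` is injective),
which the table excludes, or `p = (16, 1)`, `q = (2, 5)`, `j' = j + 1`, or `p = (2, 5)`,
`q = (16, 1)`, `j = j' + 1`, or `p = (4, 18)`, `q = (6, 1)`, `i' = i + 1`, or `p = (6, 1)`,
`q = (4, 18)`, `i = i' + 1`; in these cases the position of `q` gives `c = (17, 1)`, `(1, 5)`,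
`(4, 19)`, `(6, 0)`, respectively: in the first three cases no triangle of the table has such a
corner; in the last case `i ≥ 1`, and the only triangles of the table which have the corner
`(6, 0)` belong to blocks containing `(6, 0)` (`decide`).
For the joining blocks take the triangles `(posn n m i j (16, 1), 0)` and
`(posn n m i j (4, 18), 0)`; the third corner is `posn n m i j (16, 2)`, `posn n m i j (5, 18)`; it
is adjacent to the site `posn n m i j p`, `p = (16, 1)`, `(4, 18)`, of the cell, and it is not a site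
of this cell and not the position of the other element of the block, so it is no site by C2a. -/
def S_T2 : Prop := ∀ φ : CNF ℕ, ∀ b ∈ blocksOf φ, ∃ t : Pt × ℕ, t.2 < 2 ∧
  isBl (latS (blocksOf φ)) t b = true

/-- task T3: the two notions of selection agree.  Proof: `→`: intersect `I` with `latS B`; for
`t ∈ triK B` there is a block `b` with `isBl (latS B) t b`; it has an element in `I`, which is a
corner of `t`.  `←`: for a block `b` take the triangle `t` from the hypothesis; as `b ≠ []` its
first element `s` is in `latS B` and is a corner of `t`, so `t ∈ cand s` (coordinates of `s` are at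
least 1, `t.2 < 2`) and `t ∈ triK B`; `I` contains a corner `c` of `t`, `c ∈ L`, so `c ∈ b`.
Thus at least one element of `b` is in `I`; at most one since `I` is independent and `b` is a clique
without repetitions (`U0d_ok` in `Pool/Agent/H49R2/PC/U0d.lean` gives `length ≤ 1`). -/
def S_T3 : Prop := ∀ B, GoodB B → (∀ b ∈ B, ∃ t : Pt × ℕ, t.2 < 2 ∧ isBl (latS B) t b = true) →
  (HasSel B ↔ SelLK (latS B) (triK B))

/-! ## The plane drawing -/

/-- Offsets of the vertices: selectors, first ends, second ends, hubs, private vertices. -/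
def offT : List (List (ℤ × ℤ)) := 
  [[(35, 0), (20, 20), (0, 35), (-20, 40), (-35, 35), (-40, 20), (-35, 0), (-20, -20), (0, -35),
      (20, -40), (35, -35), (40, -20), (30, 30), (39, 30), (30, 39), (70, 61), (70, 70),
      (61, 70)],
    [(26, 7), (12, 22), (-7, 33), (-22, 34), (-33, 26), (-34, 12), (-26, -7), (-12, -22),
      (7, -33), (22, -34), (33, -26), (34, -12), (46, 0), (0, 46), (54, 46), (35, 28), (37, 35),
      (28, 37), (28, 28), (43, 28), (28, 43), (72, 63), (65, 72), (63, 65), (72, 57), (72, 72),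
      (57, 72)],
    [(22, 12), (7, 26), (-12, 34), (-26, 33), (-34, 22), (-33, 7), (-22, -12), (-7, -26),
      (12, -34), (26, -33), (34, -22), (33, -7), (54, 0), (0, 54), (46, 54), (37, 28), (35, 37),
      (28, 35), (26, 26), (48, 26), (26, 48), (72, 65), (63, 72), (65, 63), (74, 52), (74, 74),
      (52, 74)],
    [(0, 0), (-58, -83), (-58, -58), (-83, -58), (-67, -67), (-17, -42), (-42, -17), (-42, -42),
      (-33, -33)],
    [(-2, -15), (-64, -90), (-46, -64), (-90, -46), (-65, -69), (-10, -54), (-36, -10),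
      (-41, -50), (-33, -35)],
    [(2, -17), (-59, -91), (-50, -59), (-91, -50), (-65, -67), (-9, -50), (-41, -9), (-36, -54),
      (-31, -35)]]

/-- The position of the vertex with label `v`. -/
def zp (v : ℕ) : ℤ × ℤ :=
  (100 * ((v / 6).unpair.1.unpair.1 : ℤ) + ((offT.getD (v % 6) []).getD (v / 6).unpair.2 (0, 0)).1,
    100 * ((v / 6).unpair.1.unpair.2 : ℤ) + ((offT.getD (v % 6) []).getD (v / 6).unpair.2 (0, 0)).2)

/-- The position of a vertex relative to a base point: class `c`, kind `o.2.2`, shift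
`(o.1, o.2.1)`. -/
def rp (c : ℕ) (o : ℕ × ℕ × ℕ) : ℤ × ℤ :=
  (100 * (o.1 : ℤ) + ((offT.getD c []).getD o.2.2 (0, 0)).1,
    100 * (o.2.1 : ℤ) + ((offT.getD c []).getD o.2.2 (0, 0)).2)

/-- The relative edges belonging to a special edge of kind `t`. -/
def relE (t : ℕ) : List ((ℤ × ℤ) × (ℤ × ℤ)) :=
  [(rp 1 (0, 0, t), rp 2 (0, 0, t)), (rp 1 (0, 0, t), rp 0 (tabE t).1),
    (rp 2 (0, 0, t), rp 0 (tabE t).2.1)] ++
  (tabE t).2.2.flatMap (fun h => [(rp 1 (0, 0, t), rp 3 h), (rp 2 (0, 0, t), rp 3 h)])

/-- The relative edges at a hub of kind `k`. -/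
def relH (k : ℕ) : List ((ℤ × ℤ) × (ℤ × ℤ)) :=
  [(rp 3 (0, 0, k), rp 4 (0, 0, k)), (rp 3 (0, 0, k), rp 5 (0, 0, k)),
    (rp 4 (0, 0, k), rp 5 (0, 0, k))]

/-- All relative edges. -/
def rel : List ((ℤ × ℤ) × (ℤ × ℤ)) :=
  (List.range 27).flatMap relE ++ (List.range 9).flatMap relH

/-- The point `A` moved by `100 d`. -/
def mv (d : ℤ × ℤ) (A : ℤ × ℤ) : ℤ × ℤ := (A.1 + 100 * d.1, A.2 + 100 * d.2)

/-- task D1: the finite check.  Proof: all coordinates in `rel` lie in `[-92, 84]` (`decide`), so
for `|d.1| ≥ 2` or `|d.2| ≥ 2` the bounding boxes are disjoint (`sepT`); for the nine other `d` by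
`decide +kernel` (216 ^ 2 tests for each `d`; almost all pairs have disjoint bounding boxes, so it
is faster to check first the bounding boxes (with a Boolean function which is shown to imply
`okT`), and to split the check into several theorems, one for each `d`). -/
def S_D1 : Prop := ∀ d : ℤ × ℤ, ∀ e ∈ rel, ∀ f ∈ rel,
  okT e.1 e.2 (mv d f.1) (mv d f.2) = true

/-- task D2: the edges of the graph are moved relative edges.  Proof: an edge of `gE (EL L K)` comes
from a special edge `spL L p t`, `t < 27` (G1), then the base point is `p`, or it is one of the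
three edges at a hub `k ∈ hubV`, `k = sh p h = vl X Y κ` with `κ < 9` and the base point is
`(X, Y)`.  Position of `6 * vl X Y κ + c`, `c < 6`: `(6 * m + c) / 6 = m`, `(6 * m + c) % 6 = c`,
`Nat.unpair_pair`. -/
def S_D2 : Prop := ∀ L K, GoodLK L K → ∀ e ∈ (gE (EL L K)).2, ∃ p : Pt, ∃ r ∈ rel,
  zp e.1 = mv ((p.1 : ℤ), (p.2 : ℤ)) r.1 ∧ zp e.2 = mv ((p.1 : ℤ), (p.2 : ℤ)) r.2

/-- A label of a vertex with valid kind. -/
def okV (v : ℕ) : Prop := (v / 6).unpair.2 < (offT.getD (v % 6) []).length

/-- task D3: different vertices have different positions.  Proof: the offsets of the 99 valid pairs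
(class `v % 6`, kind) are different modulo 100 (`decide`); then the positions of `u`, `v` being
equal gives equality of class and kind, and then of the coordinates; `Nat.pair_unpair` and
`v = 6 * (v / 6) + v % 6`.  Model: `zpos_inj` in `Pool/Agent/H49R2/PC/U5i.lean`. -/
def S_D3 : Prop := ∀ u v, okV u → okV v → zp u = zp v → u = v

/-- task D4: vertices have valid kinds, and every vertex is an end of an edge.  Proof: selectors are
attached selectors of some `spL L p t`, `t < 27`: kind `< 18`; ends: kind `< 27`; hubs: kind `< 9`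
(table, `decide`).  Every selector is attached to an end of a special edge; the ends of a special
edge are joined; a hub is joined with its private vertices. -/
def S_D4 : Prop := ∀ L K, GoodLK L K → ∀ v ∈ (gE (EL L K)).1, okV v ∧
  ∃ e ∈ (gE (EL L K)).2, v = e.1 ∨ v = e.2

/-- task D5: the plane drawing.  Proof: as `U5i_ok` in `Pool/Agent/H49R2/PC/U5i.lean`, with `U5a_ok`
(file `U5a.lean`): position `toR (zp v)`.  Translation: `okT` does not change if all four points
are moved by the same vector (`okT_tr` in `U5b.lean`). -/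
def S_D5 : Prop := ∀ L K, GoodLK L K → IsGr (gE (EL L K)) → ∃ pos : ℕ → ℝ × ℝ,
  PlaneDrawing (gE (EL L K)) pos

def S_D5i : Prop := S_D1 → S_D2 → S_D3 → S_D4 → S_D5

/-! ## Polynomial time and assembly -/

/-- The reduction. -/
def red (φ : CNF ℕ) : Gr × ℕ :=
  (gE (EL (latS (blocksOf φ)) (triK (blocksOf φ))),
    (hubV (EL (latS (blocksOf φ)) (triK (blocksOf φ)))).length +
      (6 * (latS (blocksOf φ)).length + 2 * (triK (blocksOf φ)).length))

/-- task P1.  Proof: `V1_ok` (`Pool/Agent/H49R2/PC/V1.lean`), `V2aux.poly_latS`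
(`Pool/Agent/H49R2/PC/V2.lean`), `Pool.Agent.H49R2.PY.Y1aux.dedup` for `dedup`, `fun_prop` with
`Pool/Agent/H671R2/PolyAuto.lean`; model `Pool/Agent/H49R2/PC/V4.lean` (`poly_vl`). -/
def S_P1 : Prop := Poly (fun B : List (List Pt) => triK B)

/-- task P2.  Proof: see P1. -/
def S_P2 : Prop := Poly (fun x : List Pt × List (Pt × ℕ) => EL x.1 x.2)

/-- task P3.  Proof: see P1. -/
def S_P3 : Prop := Poly hubV ∧ Poly gE

/-- task P: polynomial time of the reduction (composition of P1, P2, P3, `V1_ok`). -/
def S_P : Prop := Poly red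

def S_Pi : Prop := S_P1 → S_P2 → S_P3 → S_P

/-- task N: the local metric dimension as a minimum.  Proof: the set of all vertices is a local
metric generator (for an edge `e` take `w = e.1`: `edist = 0` against `edist e.1 e.2 ≠ 0` since
`e.1 ≠ e.2`), so the infimum is attained (`Nat.sInf_mem`, `Nat.sInf_le`). -/
def S_N : Prop := ∀ G : Gr, IsGr G → ∀ k, (dimL G ≤ k ↔ ∃ W : Finset ℕ, IsLocGen G W ∧ W.card ≤ k)

/-- task F: the equivalence.  Proof: composition: satisfiable iff `HasSel (blocksOf φ)` (C5, C6) iff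
`SelLK` (T2, T3 with `C1_ok`) iff there is a hitting set of size at most
`6 * L.length + 2 * K.length` (H1, H2) iff there is a local metric generator of size at most the
bound (A2, A3) iff `dimL ≤ bound` (N). -/
def S_F : Prop := ∀ φ : CNF ℕ, 0 < satCount φ ↔
  (IsPlanar (red φ).1 ∧ dimL (red φ).1 ≤ (red φ).2)

end Pool.Agent.Q231.LMD
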